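import Mathlib
import Pool.Agent.Q67.FS.Main

set_option autoImplicit false

namespace Pool.Agent.Results.MP_bfac72_an.WeaklyMixingNotFilterSensitive

open Q67.FS

/-- There is a weakly mixing (hence transitive and thickly sensitive) system on a compact metric
space which is not filter-sensitive. -/
theorem result : ∃ (X : Type) (_ : MetricSpace X) (_ : CompactSpace X) (T : X → X),
    Continuous T ∧ Function.Surjective T ∧ Nontrivial X ∧
      WeaklyMixing T ∧ Transitive T ∧ ThicklySensitive T ∧ ¬ FilterSensitive T := by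
  letI : MetricSpace Z := PiNat.metricSpace
  refine ⟨X, inferInstance, inferInstance, T, T_cont, T_surj, ?_, T_wm, T_trans, T_thick,
    T_not_fs⟩
  obtain ⟨x, hx⟩ := UU_nonempty 0 0
  obtain ⟨y, hy⟩ := UU_nonempty 0 1
  refine ⟨⟨x, y, ?_⟩⟩
  rintro rfl
  exact x.2 0 0 1 (by norm_num) (hx 0 le_rfl) (hy 0 le_rfl) (Or.inl rfl)

end Pool.Agent.Results.MP_bfac72_an.WeaklyMixingNotFilterSensitive
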